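import Pool.Agent.Lib.MP_33b3f9_ag.M4.DetD
import Pool.Agent.Lib.MP_33b3f9_ag.M4.NTMisc

/-!
The determinant method on a dense stable subset.
-/

set_option autoImplicit false

namespace M4.G

open Pool.Agent.M4.Det

/-- Multiplication by the function `s ↦ c s ^ k` is a linear equivalence of `S → ℂ` that maps one
span onto the other. -/
theorem hil_smul {S ι : Type} [Fintype ι] (c : S → ℂ) (hc : ∀ s, c s ≠ 0) (u : S → ι → ℂ) (k : ℕ) :
    hil (fun s => c s • u s) k = hil u k := by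
  let L : (S → ℂ) ≃ₗ[ℂ] (S → ℂ) := LinearEquiv.piCongrRight fun s =>
    LinearEquiv.smulOfNeZero ℂ ℂ (c s ^ k) (pow_ne_zero k (hc s))
  have e : (fun m : {m : ι →₀ ℕ // ∑ i, m i = k} => mono (fun s => c s • u s) m.1) =
      (L : (S → ℂ) →ₗ[ℂ] (S → ℂ)) ∘ fun m : {m : ι →₀ ℕ // ∑ i, m i = k} => mono u m.1 := by
    funext m s
    change ∏ i, (c s * u s i) ^ m.1 i = c s ^ k * ∏ i, u s i ^ m.1 i
    simp only [mul_pow, Finset.prod_mul_distrib, Finset.prod_pow_eq_pow_sum, m.2]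
  rw [hil, hil, e, Set.range_comp, Submodule.span_image, LinearEquiv.finrank_map_eq]

theorem sameRed_smul {ι : Type} {p : ℕ} [Fact p.Prime] {e : ℂ ≃+* PadicAlgCl p} {u u' : ι → ℂ}
    {c c' : ℂ} (hc : c ≠ 0) (hc' : c' ≠ 0) (h : SameRed e u u') : SameRed e (c • u) (c' • u') := by
  obtain ⟨b, b', h1, h2, h3⟩ := h
  have e1 : ∀ i, b / c * (c • u) i = b * u i := fun i => by
    rw [Pi.smul_apply, smul_eq_mul]
    field_simp
  have e2 : ∀ i, b' / c' * (c' • u') i = b' * u' i := fun i => by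
    rw [Pi.smul_apply, smul_eq_mul]
    field_simp
  refine ⟨b / c, b' / c', ?_, ?_, ?_⟩
  · simpa only [e2] using h1
  · simpa only [e2] using h2
  · simpa only [e1, e2] using h3

/-- `X` is the set of `ξ` with `d / 2 * PP.card ≤ #{p ∈ PP | ∃ σ, a σ ξ ∈ St p}`; `NT.tup` gives its
size. It is stable under `a`; restrict the action (`Equiv.Perm.subtypePerm`, or `MulAction.toPermHom`)
and apply `hilb` to the subtype with `N = ⌈d / 2 * PP.card⌉₊`, `St' p = Subtype.val ⁻¹' St p`. -/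
theorem det_dense {S ι : Type} [Fintype S] [Fintype ι] (K : IntermediateField ℚ ℂ)
    [FiniteDimensional ℚ K] (a : (ℂ ≃ₐ[K] ℂ) →* Equiv.Perm S) (y : S → ι → ℂ)
    (hy : ∀ σ s i, σ (y s i) = y (a σ s) i) (hi : ∀ s i, IsIntegral ℤ (y s i)) {B : ℝ}
    (hB1 : 1 ≤ B) (hB : ∀ (φ : ℂ →+* ℂ) s i, ‖φ (y s i)‖ ≤ B) {Om : ℕ}
    (hOm : ∀ s, (Set.range fun σ => a σ s).ncard ≤ Om) (PP : Finset ℕ) (hne : PP.Nonempty) {P : ℝ}
    (hP : 1 < P) (hPP : ∀ p ∈ PP, p.Prime ∧ P ≤ p) {h : ℕ} (St : ℕ → Set S)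
    (hSt : ∀ p ∈ PP, FewRed y p h (St p)) {d : ℝ} (hd : 0 < d)
    (hden : ∀ p ∈ PP, d * Fintype.card S ≤ {s | ∃ σ, a σ s ∈ St p}.ncard) :
    ∃ X : Finset S, d / 2 * Fintype.card S ≤ X.card ∧ ∀ k : ℕ,
      2 * Module.finrank ℚ K * Om * (Real.log (Fintype.card S) + k * Real.log B) ≤
        d / 2 * PP.card * Real.log P → (hil (fun s : X => y s) k : ℝ) ≤ 4 * h * Om / d := by
  classical
  have hstab : ∀ (τ : ℂ ≃ₐ[K] ℂ) (x : S) (p : ℕ),
      (∃ σ, a σ (a τ x) ∈ St p) ↔ ∃ σ, a σ x ∈ St p := fun τ x p => by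
    constructor
    · rintro ⟨σ, hσ⟩
      exact ⟨σ * τ, by rwa [map_mul, Equiv.Perm.mul_apply]⟩
    · rintro ⟨σ, hσ⟩
      exact ⟨σ * τ⁻¹, by rwa [← Equiv.Perm.mul_apply, ← map_mul, inv_mul_cancel_right]⟩
  obtain ⟨X, hX⟩ : ∃ X : Finset S, ∀ x, x ∈ X ↔
      d / 2 * PP.card ≤ ((PP.filter fun p => ∃ σ, a σ x ∈ St p).card : ℝ) :=
    ⟨Finset.univ.filter fun x =>
      d / 2 * PP.card ≤ ((PP.filter fun p => ∃ σ, a σ x ∈ St p).card : ℝ), fun x => by simp⟩
  have hXs : ∀ (τ : ℂ ≃ₐ[K] ℂ) (x : S), a τ x ∈ X ↔ x ∈ X := fun τ x => by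
    rw [hX, hX]
    simp only [hstab]
  refine ⟨X, ?_, fun k hk => ?_⟩
  · have h1 := NT.tup PP (Finset.univ : Finset S) (fun p x => ∃ σ, a σ x ∈ St p) (d := d)
      (fun p hp => by
        refine (hden p hp).trans (le_of_eq ?_)
        rw [← Set.ncard_coe_finset]
        congr 2
        ext x
        simp) hne
    refine h1.trans (le_of_eq ?_)
    congr 2
    ext x
    rw [hX, Finset.mem_filter]
    simp only [Finset.mem_univ, true_and]
  let a' : (ℂ ≃ₐ[K] ℂ) →* Equiv.Perm X :=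
    { toFun := fun σ => (a σ).subtypePerm (p := fun x => x ∈ X) (hXs σ)
      map_one' := by
        ext x
        simp
      map_mul' := fun σ τ => by
        ext x
        change a (σ * τ) x = a σ (a τ x)
        rw [map_mul, Equiv.Perm.mul_apply] }
  have hc : (0 : ℝ) < PP.card := Nat.cast_pos.2 hne.card_pos
  have hlP := Real.log_pos hP
  have hN := Nat.le_ceil (d / 2 * PP.card)
  have hlog : Real.log (Fintype.card X) ≤ Real.log (Fintype.card S) := by
    rcases Nat.eq_zero_or_pos (Fintype.card X) with h0 | h0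
    · rw [h0, Nat.cast_zero, Real.log_zero]
      exact Real.log_natCast_nonneg _
    · exact Real.log_le_log (Nat.cast_pos.2 h0) (Nat.cast_le.2 (Fintype.card_subtype_le _))
  have H := hilb K a' (fun s : X => y s) (fun σ s i => hy σ s i) (fun s i => hi s i) hB1
    (fun φ s i => hB φ s i) (Om := Om) (fun s => by
      rw [← Set.ncard_image_of_injective _ Subtype.val_injective, ← Set.range_comp]
      exact hOm s) PP hP hPP (h := h) (N := ⌈d / 2 * PP.card⌉₊)
    (fun p => Subtype.val ⁻¹' St p) (fun p hp => by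
      obtain ⟨w, hw, hwp, cl, ref, href, H⟩ := hSt p hp
      exact ⟨w, hw, hwp, fun s => cl s, ref, href, fun s hs => H s hs⟩)
    (fun s => by
      refine Nat.ceil_le.2 (((hX s).1 s.2).trans (le_of_eq ?_))
      congr!) k (by
      refine le_trans ?_ (hk.trans (mul_le_mul_of_nonneg_right hN hlP.le))
      gcongr)
  have H' : (hil (fun s : X => y s) k : ℝ) * ⌈d / 2 * PP.card⌉₊ ≤ 2 * h * Om * PP.card := by
    exact_mod_cast H
  have H2 := (mul_le_mul_of_nonneg_left hN (Nat.cast_nonneg (hil (fun s : X => y s) k))).trans H'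
  rw [le_div_iff₀ hd]
  refine le_of_mul_le_mul_right ?_ hc
  linarith

end M4.G
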