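import Pool.Agent.Lib.MP_33b3f9_ag.M4.IDefs
import Pool.Agent.Lib.MP_33b3f9_ag.M4.KzDefs
import Pool.Agent.Lib.MP_33b3f9_ag.M4.MxT

/-!
Definitions for the glue.
-/

set_option autoImplicit false

noncomputable section

namespace M4.G

open Matrix

/-- The image of a subgroup under a matrix modulo `l`. -/
def mv {l : ℕ} (B : Matrix ν ν (ZMod l)) (G : AddSubgroup (ν → ℤ)) : AddSubgroup (ν → ℤ) where
  carrier := {x | ∃ y ∈ G, Kz.vZ l x = B *ᵥ Kz.vZ l y}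
  zero_mem' := ⟨0, G.zero_mem, by
    have : Kz.vZ l (0 : ν → ℤ) = 0 := by funext i; simp [Kz.vZ]
    rw [this, mulVec_zero]⟩
  add_mem' := by
    rintro a b ⟨y, hy, h⟩ ⟨y', hy', h'⟩
    exact ⟨y + y', G.add_mem hy hy', by rw [Kz.vZ_add, Kz.vZ_add, mulVec_add, h, h']⟩
  neg_mem' := by
    rintro a ⟨y, hy, h⟩
    have e : ∀ x : ν → ℤ, Kz.vZ l (-x) = -Kz.vZ l x := fun x => by funext i; simp [Kz.vZ]
    exact ⟨-y, G.neg_mem hy, by rw [e, e, mulVec_neg, h]⟩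

/-- The subgroups attached to the slot `f`. -/
def SL {l : ℕ} (A : Matrix (Fin 3 → Fin 2) ν (ZMod l)) (f : Fin 3) :
    Set (AddSubgroup (ν → ℤ)) := {G | ∃ w, w ≠ 0 ∧ G = slot A f w}

/-- The representation modulo a prime as a homomorphism. -/
def rbh {K : IntermediateField ℚ ℂ} (r : Rep K) (l : ℕ) [Fact l.Prime] :
    (ℂ ≃ₐ[K] ℂ) →* Matrix ν ν (ZMod l) where
  toFun := rb r l
  map_one' := by
    rw [rb, map_one, Units.val_one, Matrix.map_one _ (map_zero _) (map_one _)]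
  map_mul' := fun σ σ' => by rw [rb, rb, rb, map_mul, Units.val_mul, Matrix.map_mul]

/-- The representation modulo `l`, trivial if `l` is not a prime. -/
def rbn {K : IntermediateField ℚ ℂ} (r : Rep K) (l : ℕ) : (ℂ ≃ₐ[K] ℂ) →* Matrix ν ν (ZMod l) :=
  if h : l.Prime then @rbh K r l ⟨h⟩ else 1

theorem rbn_eq {K : IntermediateField ℚ ℂ} (r : Rep K) (l : ℕ) [h : Fact l.Prime]
    (σ : ℂ ≃ₐ[K] ℂ) : rbn r l σ = rb r l σ := by
  rw [rbn, dif_pos h.out]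
  rfl

end M4.G
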