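import Mathlib

/-!
Transitivity on a product of finite sets attached to distinct primes.
-/

set_option autoImplicit false

namespace M4.G

/-- Induction on a finset `J` of indices, removing the index `i` with the largest `l i`
(`Finset.induction_on_max_value`). Let `H` be the set of `σ` for which there is `σ'` that acts on
`Z i` as `σ` and fixes all points of `Z j` for `l j < l i`. It is a subgroup. It contains every `σ`
with `σ ^ l i` trivial on `Z i`: the power `σ ^ (l i - 1)!` is trivial on `Z j` (a permutation of a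
set with `n < l i` points has order dividing `n !`, `pow_card_eq_one`), and `(l i - 1)!` is prime to
`l i`, so take `σ' = σ ^ ((l i - 1)! * k)` with `(l i - 1)! * k ≡ 1 [MOD l i]`. -/
theorem trans_prod {Γ W ι : Type} [Group Γ] [Finite ι] (m : ι → Γ → W → W) (Z : ι → Set W)
    (l : ι → ℕ) (hl : ∀ i, (l i).Prime) (hinj : Function.Injective l) (fin : ∀ i, (Z i).Finite)
    (one : ∀ i, ∀ z ∈ Z i, m i 1 z = z)
    (mul : ∀ i σ σ' z, m i (σ * σ') z = m i σ (m i σ' z))
    (inv : ∀ i σ, ∀ z ∈ Z i, m i σ z ∈ Z i) (card : ∀ i j, l j < l i → (Z j).ncard < l i)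
    (gen : ∀ i, ∀ z ∈ Z i, ∀ z' ∈ Z i,
      ∃ σ ∈ Subgroup.closure {σ : Γ | ∀ w ∈ Z i, m i (σ ^ l i) w = w}, m i σ z = z')
    (z z' : ι → W) (hz : ∀ i, z i ∈ Z i) (hz' : ∀ i, z' i ∈ Z i) :
    ∃ σ, ∀ i, m i σ (z i) = z' i := by
  classical
  have hρ : ∀ i, ∃ ρ : Γ →* Equiv.Perm (Z i), ∀ σ (w : Z i), (ρ σ w : W) = m i σ w := fun i => by
    let _ : MulAction Γ (Z i) :=
      { smul := fun σ w => ⟨m i σ w, inv i σ w w.2⟩
        one_smul := fun w => Subtype.ext (one i w w.2)
        mul_smul := fun σ σ' w => Subtype.ext (mul i σ σ' w) }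
    exact ⟨MulAction.toPermHom Γ (Z i), fun _ _ => rfl⟩
  choose ρ hρ using hρ
  have key : ∀ i, ∀ σ ∈ Subgroup.closure {σ : Γ | ∀ w ∈ Z i, m i (σ ^ l i) w = w},
      ∃ σ', ρ i σ' = ρ i σ ∧ ∀ j, l j < l i → ρ j σ' = 1 := by
    intro i σ hσ
    induction hσ using Subgroup.closure_induction with
    | mem σ hσ =>
      have h1 : ρ i σ ^ l i = 1 := by
        rw [← map_pow]
        exact Equiv.ext fun w => Subtype.ext ((hρ i _ w).trans (hσ w w.2))
      have h2 : (l i - 1).factorial.Coprime (orderOf (ρ i σ)) := by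
        refine Nat.Coprime.coprime_dvd_right (orderOf_dvd_of_pow_eq_one h1) ?_
        refine ((Nat.Prime.coprime_iff_not_dvd (hl i)).2 fun h => ?_).symm
        have h3 := ((hl i).dvd_factorial).1 h
        have h4 := (hl i).pos
        omega
      obtain ⟨k, hk⟩ := exists_pow_eq_self_of_coprime h2
      refine ⟨(σ ^ (l i - 1).factorial) ^ k, by rw [map_pow, map_pow, hk], fun j hj => ?_⟩
      have := (fin j).fintype
      have h3 : Fintype.card (Equiv.Perm (Z j)) ∣ (l i - 1).factorial := by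
        rw [Fintype.card_perm]
        refine Nat.factorial_dvd_factorial ?_
        have h4 := card i j hj
        rw [← Nat.card_coe_set_eq, Nat.card_eq_fintype_card] at h4
        omega
      obtain ⟨c, hc⟩ := h3
      rw [map_pow, map_pow, hc, pow_mul, pow_card_eq_one, one_pow, one_pow]
    | one => exact ⟨1, rfl, fun j _ => map_one _⟩
    | mul σ τ _ _ h1 h2 =>
      obtain ⟨σ', h1, h1'⟩ := h1
      obtain ⟨τ', h2, h2'⟩ := h2
      exact ⟨σ' * τ', by rw [map_mul, map_mul, h1, h2], fun j hj => by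
        rw [map_mul, h1' j hj, h2' j hj, one_mul]⟩
    | inv σ _ h1 =>
      obtain ⟨σ', h1, h1'⟩ := h1
      exact ⟨σ'⁻¹, by rw [map_inv, map_inv, h1], fun j hj => by rw [map_inv, h1' j hj, inv_one]⟩
  have main : ∀ J : Finset ι, ∃ σ, ∀ i ∈ J, m i σ (z i) = z' i := by
    intro J
    induction J using Finset.induction_on_max_value l with
    | empty => exact ⟨1, fun i hi => absurd hi (Finset.notMem_empty i)⟩
    | insert a s ha hmax ih =>
      obtain ⟨σ0, h0⟩ := ih
      obtain ⟨σ, hσ, h1⟩ := gen a _ (inv a σ0 _ (hz a)) _ (hz' a)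
      obtain ⟨σ', h2, h3⟩ := key a σ hσ
      refine ⟨σ' * σ0, fun i hi => ?_⟩
      rw [mul]
      rcases Finset.mem_insert.1 hi with rfl | hi
      · rw [← h1]
        exact (hρ i σ' ⟨_, inv i σ0 _ (hz i)⟩).symm.trans
          (h2 ▸ hρ i σ ⟨_, inv i σ0 _ (hz i)⟩)
      · have h4 : l i < l a := lt_of_le_of_ne (hmax i hi) fun h => ha (hinj h ▸ hi)
        rw [h0 i hi, ← hρ i σ' ⟨_, hz' i⟩, h3 i h4]
        rfl
  have := Fintype.ofFinite ι
  obtain ⟨σ, h⟩ := main Finset.univ
  exact ⟨σ, fun i => h i (Finset.mem_univ i)⟩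

end M4.G
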