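import Pool.Agent.Lib.MP_33b3f9_ag.M4.G.SlotB
import Pool.Agent.Lib.MP_33b3f9_ag.M4.G.Lag
import Pool.Agent.Lib.MP_33b3f9_ag.M4.G.Mat
import Pool.Agent.Lib.MP_33b3f9_ag.M4.G.Trans

/-!
The set of tuples of subgroups, the Galois action on it, and the family of similitudes.
-/

set_option autoImplicit false

noncomputable section

namespace M4.G

open Matrix

/-- Pairs of an index in `T` and a point of the set attached to it. -/
def Sg {W : Type} (T : Finset ℕ) (Z : ℕ → Set W) : Set (ℕ × W) := {q | q.1 ∈ T ∧ q.2 ∈ Z q.1}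

/-- The pairs as a sigma type. -/
def sgEquiv {W : Type} (T : Finset ℕ) (Z : ℕ → Set W) : Sg T Z ≃ Σ l : T, Z l where
  toFun q := ⟨⟨q.1.1, q.2.1⟩, ⟨q.1.2, q.2.2⟩⟩
  invFun q := ⟨(q.1.1, q.2.1), q.1.2, q.2.2⟩
  left_inv _ := rfl
  right_inv _ := rfl

theorem sg_card {W : Type} {T : Finset ℕ} {Z : ℕ → Set W} (h : ∀ l ∈ T, (Z l).Finite) :
    (Sg T Z).Finite ∧ (Sg T Z).ncard = ∑ l ∈ T, (Z l).ncard := by
  have : ∀ l : T, Finite (Z l) := fun l => (h l l.2).to_subtype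
  refine ⟨?_, ?_⟩
  · exact Set.finite_coe_iff.1 (Finite.of_equiv _ (sgEquiv T Z).symm)
  · rw [← Nat.card_coe_set_eq, Nat.card_congr (sgEquiv T Z), Nat.card_sigma,
      ← Finset.sum_coe_sort T]
    rfl

theorem ncard_pi {ι : Type} [Fintype ι] {β : ι → Type} (D : ∀ i, Set (β i)) :
    (Set.univ.pi D).ncard = ∏ i, (D i).ncard := by
  rw [← Nat.card_coe_set_eq, Nat.card_congr (Equiv.Set.univPi D), Nat.card_pi]
  rfl

/-- Families of frames modulo `l`. -/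
abbrev FA : Type := ∀ l : ℕ, Matrix (Fin 3 → Fin 2) ν (ZMod l)

/-- Families of inverse frames modulo `l`. -/
abbrev FB : Type := ∀ l : ℕ, Matrix ν (Fin 3 → Fin 2) (ZMod l)

/-- All subgroups of slot type at `l`. -/
def SU (A : FA) (l : ℕ) : Set (AddSubgroup (ν → ℤ)) := ⋃ f, SL (A l) f

variable {K : IntermediateField ℚ ℂ} {r : Rep K} {A : FA} {A' : FB}

/-- Primes with a tensor structure. -/
def Ok (r : Rep K) (A : FA) (A' : FB) (l : ℕ) : Prop :=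
  ∃ _ : Fact l.Prime, l ≡ 1 [MOD 32] ∧ TS r l (A l) (A' l)

namespace Ok

variable {l : ℕ}

theorem prime (h : Ok r A A' l) : l.Prime := h.1.out

theorem mv_mem (h : Ok r A A' l) (σ : ℂ ≃ₐ[K] ℂ) {f : Fin 3} {G : AddSubgroup (ν → ℤ)}
    (hG : G ∈ SL (A l) f) : mv (rbn r l σ) G ∈ SL (A l) f := by
  obtain ⟨_, -, h⟩ := h
  obtain ⟨u, hu⟩ := h.im σ
  refine mv_mem_SL h.inv h.inv' (B' := rbn r l σ⁻¹) ?_ (rbn_eq r l σ ▸ hu) hG
  rw [← map_mul, mul_inv_cancel, map_one]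

theorem mv_one {f : Fin 3} {G : AddSubgroup (ν → ℤ)} (hG : G ∈ SL (A l) f) :
    mv (rbn r l 1) G = G := by
  obtain ⟨w, -, rfl⟩ := hG
  rw [map_one, mv_one_slot]

theorem mv_mul (h : Ok r A A' l) (σ σ' : ℂ ≃ₐ[K] ℂ) (G : AddSubgroup (ν → ℤ)) :
    mv (rbn r l (σ * σ')) G = mv (rbn r l σ) (mv (rbn r l σ') G) := by
  have : NeZero l := ⟨h.prime.ne_zero⟩
  rw [map_mul, M4.G.mv_mul]

theorem sl (h : Ok r A A' l) (f : Fin 3) :
    (SL (A l) f).Finite ∧ l ≤ (SL (A l) f).ncard ∧ (SL (A l) f).ncard ≤ l + 1 := by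
  obtain ⟨_, -, h⟩ := h
  exact ⟨SL_finite f, le_ncard_SL h.inv f, ncard_SL_le f⟩

theorem su (h : Ok r A A' l) :
    (SU A l).Finite ∧ l ≤ (SU A l).ncard ∧ (SU A l).ncard ≤ 3 * (l + 1) := by
  have hf : (SU A l).Finite := Set.finite_iUnion fun f => (h.sl f).1
  refine ⟨hf, (h.sl 0).2.1.trans (Set.ncard_le_ncard (Set.subset_iUnion _ 0) hf), ?_⟩
  refine (Set.ncard_iUnion_le_of_fintype _).trans ?_
  refine (Finset.sum_le_card_nsmul _ _ _ fun f _ => (h.sl f).2.2).trans ?_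
  simp

theorem lag (h : Ok r A A' l) (hmu : MUst r) {G : AddSubgroup (ν → ℤ)} (hG : G ∈ SU A l) :
    Lag l G := by
  obtain ⟨_, -, h⟩ := h
  obtain ⟨f, w, hw, rfl⟩ := Set.mem_iUnion.1 hG
  exact lag_slot hmu h f hw

theorem gen (h : Ok r A A' l) (f : Fin 3) : ∀ z ∈ SL (A l) f, ∀ z' ∈ SL (A l) f,
    ∃ σ ∈ Subgroup.closure {σ : ℂ ≃ₐ[K] ℂ | ∀ w ∈ SL (A l) f, mv (rbn r l (σ ^ l)) w = w},
      mv (rbn r l σ) z = z' := by
  obtain ⟨_, -, h⟩ := h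
  exact SL_gen h.inv h.inv' (rbn r l) f fun u hu => by
    obtain ⟨σ, hσ⟩ := h.big f u hu
    exact ⟨σ, by rw [rbn_eq]; exact hσ⟩

end Ok

/-- Tuples of primes with subgroups. -/
abbrev Tup (A : FA) {s : ℕ} (LL : Fin s → Finset ℕ) : Type := ∀ i, Sg (LL i) (SU A)

/-- Blocks of primes. -/
structure Blk (r : Rep K) (A : FA) (A' : FB) (Y n : ℕ) {s : ℕ} (LL : Fin s → Finset ℕ) : Prop where
  ok : ∀ i, ∀ l ∈ LL i, Ok r A A' l
  big : ∀ i, ∀ l ∈ LL i, Y < l ∧ l ≤ 2 * Y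
  card : ∀ i, (LL i).card = n
  disj : ∀ i j, i ≠ j → Disjoint (LL i) (LL j)

namespace Blk

variable {Y n s : ℕ} {LL : Fin s → Finset ℕ} (H : Blk r A A' Y n LL)
include H

theorem okt (ξ : Tup A LL) (i : Fin s) : Ok r A A' (ξ i).1.1 := H.ok i _ (ξ i).2.1

theorem eq_of {ξ ξ' : Tup A LL} {i j : Fin s} (h : (ξ i).1.1 = (ξ' j).1.1) : i = j := by
  by_contra hij
  exact Finset.disjoint_left.1 (H.disj i j hij) (ξ i).2.1 (h ▸ (ξ' j).2.1)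

theorem inj (ξ : Tup A LL) : Function.Injective fun i => (ξ i).1.1 := fun _ _ h => H.eq_of h

theorem eq_of_dvd (ξ : Tup A LL) {l : ℕ} (hl : l.Prime) (h : l ∣ ∏ i, (ξ i).1.1) :
    ∃ i, l = (ξ i).1.1 := by
  obtain ⟨i, -, hi⟩ := (hl.prime.dvd_finsetProd_iff _).1 h
  exact ⟨i, (Nat.prime_dvd_prime_iff_eq hl (H.okt ξ i).prime).1 hi⟩

/-- The Galois action on tuples. -/
def act : (ℂ ≃ₐ[K] ℂ) →* Equiv.Perm (Tup A LL) :=
  MonoidHom.toHomPerm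
    { toFun := fun σ ξ i => ⟨((ξ i).1.1, mv (rbn r (ξ i).1.1 σ) (ξ i).1.2), (ξ i).2.1, by
        obtain ⟨f, hf⟩ := Set.mem_iUnion.1 (ξ i).2.2
        exact Set.mem_iUnion.2 ⟨f, (H.okt ξ i).mv_mem σ hf⟩⟩
      map_one' := by
        funext ξ i
        obtain ⟨f, hf⟩ := Set.mem_iUnion.1 (ξ i).2.2
        exact Subtype.ext (Prod.ext rfl (Ok.mv_one hf))
      map_mul' := fun σ σ' => by
        funext ξ i
        exact Subtype.ext (Prod.ext rfl ((H.okt ξ i).mv_mul σ σ' _)) }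

theorem act_apply (σ : ℂ ≃ₐ[K] ℂ) (ξ : Tup A LL) (i : Fin s) :
    (H.act σ ξ i).1 = ((ξ i).1.1, mv (rbn r (ξ i).1.1 σ) (ξ i).1.2) := rfl

theorem om (i : Fin s) : (Sg (LL i) (SU A)).Finite ∧ n * Y ≤ (Sg (LL i) (SU A)).ncard ∧
    (Sg (LL i) (SU A)).ncard ≤ n * (9 * Y) := by
  obtain ⟨h1, h2⟩ := sg_card (Z := SU A) fun l hl => (H.ok i l hl).su.1
  rw [h2, ← H.card i]
  refine ⟨h1, Finset.card_nsmul_le_sum _ _ _ fun l hl => ?_,
    Finset.sum_le_card_nsmul _ _ _ fun l hl => ?_⟩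
  · exact (H.big i l hl).1.le.trans (H.ok i l hl).su.2.1
  · have := (H.ok i l hl).su.2.2
    have := H.big i l hl
    omega

theorem n_le (i : Fin s) : n ≤ Y := by
  have : LL i ⊆ Finset.Ioc Y (2 * Y) := fun l hl => Finset.mem_Ioc.2 (H.big i l hl)
  have := Finset.card_le_card this
  rw [H.card, Nat.card_Ioc] at this
  omega

theorem orbit (ξ : Tup A LL) : (Set.range fun σ => H.act σ ξ).ncard ≤ (9 * Y) ^ s := by
  have : ∀ i, Finite (Sg (LL i) (SU A)) := fun i => (H.om i).1.to_subtype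
  have h1 : (Set.range fun σ => H.act σ ξ) ⊆
      Set.univ.pi fun i => Subtype.val ⁻¹' Sg {(ξ i).1.1} (SU A) := by
    rintro _ ⟨σ, rfl⟩ i -
    exact ⟨Finset.mem_singleton_self _, (H.act σ ξ i).2.2⟩
  refine (Set.ncard_le_ncard h1 (Set.toFinite _)).trans ?_
  rw [ncard_pi]
  refine (Finset.prod_le_pow_card _ _ (9 * Y) fun i _ => ?_).trans (by simp)
  obtain ⟨h2, h3⟩ := sg_card (T := {(ξ i).1.1}) (Z := SU A) fun l hl => by
    rw [Finset.mem_singleton.1 hl]; exact (H.okt ξ i).su.1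
  refine (Set.ncard_le_ncard_of_injOn Subtype.val (fun _ h => h) Subtype.val_injective.injOn
    h2).trans ?_
  rw [h3, Finset.sum_singleton]
  have := (H.okt ξ i).su.2.2
  have := H.big i _ (ξ i).2.1
  omega

/-- Tuples with the same primes and slots are conjugate. -/
theorem trans (ξ ξ' : Tup A LL) (f : Fin s → Fin 3) (hl : ∀ i, (ξ' i).1.1 = (ξ i).1.1)
    (h : ∀ i, (ξ i).1.2 ∈ SL (A (ξ i).1.1) (f i)) (h' : ∀ i, (ξ' i).1.2 ∈ SL (A (ξ i).1.1) (f i)) :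
    ∃ σ, H.act σ ξ = ξ' := by
  obtain ⟨σ, hσ⟩ := trans_prod (fun i σ => mv (rbn r (ξ i).1.1 σ))
    (fun i => SL (A (ξ i).1.1) (f i)) (fun i => (ξ i).1.1) (fun i => (H.okt ξ i).prime) (H.inj ξ)
    (fun i => ((H.okt ξ i).sl _).1) (fun i z hz => Ok.mv_one hz)
    (fun i => (H.okt ξ i).mv_mul) (fun i σ z hz => (H.okt ξ i).mv_mem σ hz)
    (fun i j hij => by
      have h1 := ((H.okt ξ j).sl (f j)).2.2
      have h2 : (ξ i).1.1 % 32 = 1 := (H.okt ξ i).2.1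
      have h3 : (ξ j).1.1 % 32 = 1 := (H.okt ξ j).2.1
      omega)
    (fun i => (H.okt ξ i).gen _) _ _ h h'
  exact ⟨σ, funext fun i => Subtype.ext (Prod.ext (hl i).symm (hσ i))⟩

theorem exists_fam (hmu : MUst r) (hl : LAGRst) : ∃ g : Tup A LL → MZ,
    ∀ ξ, Iso (g ξ) (∏ i, (ξ i).1.1) ∧ ∀ i, Ker (g ξ) (ξ i).1.1 = (ξ i).1.2 := by
  have := fun ξ : Tup A LL => lagr_tuple hl (H.inj ξ) (fun i => (ξ i).1.2) fun i =>
    ⟨(H.okt ξ i).prime, (H.okt ξ i).2.1, (H.okt ξ i).lag hmu (ξ i).2.2⟩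
  choose g hg using this
  exact ⟨g, hg⟩

theorem fam {g : Tup A LL → MZ}
    (hg : ∀ ξ, Iso (g ξ) (∏ i, (ξ i).1.1) ∧ ∀ i, Ker (g ξ) (ξ i).1.1 = (ξ i).1.2)
    (X : Finset (Tup A LL)) : Fam (2 * Y) X g fun ξ => ∏ i, (ξ i).1.1 where
  iso ξ _ := (hg ξ).1
  sep ξ _ ξ' _ γ hγ c c' hc e := by
    obtain ⟨h1, h2⟩ := iso_sep (hg ξ).1 (hg ξ').1 hγ hc e
    funext i
    obtain ⟨j, hj⟩ := H.eq_of_dvd ξ' (H.okt ξ i).prime
      (h1 ▸ Finset.dvd_prod_of_mem (fun i => (ξ i).1.1) (Finset.mem_univ i))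
    obtain rfl := H.eq_of hj
    refine Subtype.ext (Prod.ext hj ?_)
    rw [← (hg ξ).2, ← (hg ξ').2, h2, hj]
  nb ξ _ ξ' _ := by
    rintro ⟨i, hi⟩
    have e : ∏ j ∈ Finset.univ.erase i, (ξ' j).1.1 = ∏ j ∈ Finset.univ.erase i, (ξ j).1.1 :=
      Finset.prod_congr rfl fun j hj => by rw [hi j (Finset.ne_of_mem_erase hj)]
    have h1 := (hg ξ).1
    have h2 := (hg ξ').1
    rw [← Finset.mul_prod_erase _ _ (Finset.mem_univ i)] at h1 h2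
    rw [e] at h2
    obtain ⟨u, u1, u2, u3⟩ := iso_nb h1 h2 fun q hq hd => by
      obtain ⟨j, hj, hd⟩ := (hq.prime.dvd_finsetProd_iff _).1 hd
      rw [(Nat.prime_dvd_prime_iff_eq hq (H.okt ξ j).prime).1 hd, (hg ξ).2,
        hi j (Finset.ne_of_mem_erase hj), (hg ξ').2]
    refine ⟨_, _, u, (H.okt ξ i).prime.pos, ?_, ?_, u1, u2, u3⟩
    · rw [sq]
      exact Nat.mul_le_mul (H.big i _ (ξ i).2.1).2 (H.big i _ (ξ' i).2.1).2
    · exact ((H.okt ξ i).2.1).mul (H.okt ξ' i).2.1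

end Blk

end M4.G
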