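import Pool.Agent.Lib.MP_33b3f9_ag.M4.G.Defs

/-!
The subgroups attached to the lines in a slot.
-/

set_option autoImplicit false

namespace M4.G

open Matrix Pool.Agent.M4

variable {l : ℕ} {A : Matrix (Fin 3 → Fin 2) ν (ZMod l)} {A' : Matrix ν (Fin 3 → Fin 2) (ZMod l)}

/-- Reduction is onto (`Kz.vZ_lift`). -/
theorem mv_mul [NeZero l] (B B' : Matrix ν ν (ZMod l)) (G : AddSubgroup (ν → ℤ)) :
    mv (B * B') G = mv B (mv B' G) := by
  ext x
  constructor
  · rintro ⟨y, hy, h⟩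
    exact ⟨Kz.lift (B' *ᵥ Kz.vZ l y), ⟨y, hy, Kz.vZ_lift _⟩, by
      rw [h, Kz.vZ_lift, mulVec_mulVec]⟩
  · rintro ⟨y', ⟨y, hy, h'⟩, h⟩
    exact ⟨y, hy, by rw [h, h', mulVec_mulVec]⟩

theorem slot_mem {f : Fin 3} {w : Fin 2 → ZMod l} {x : ν → ℤ} : x ∈ slot A f w ↔
    ∀ i : Fin 3 → Fin 2, ∑ a, w a * (A *ᵥ Kz.vZ l x) (Function.update i f a) = 0 := Iff.rfl

theorem mv_one_slot (f : Fin 3) (w : Fin 2 → ZMod l) :
    mv (1 : Matrix ν ν (ZMod l)) (slot A f w) = slot A f w := by
  ext x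
  constructor
  · rintro ⟨y, hy, h⟩
    rw [one_mulVec] at h
    rw [slot_mem, h]
    exact hy
  · exact fun hx => ⟨x, hx, (one_mulVec _).symm⟩

theorem slot_sum {R : Type} [CommRing R] (f : Fin 3) (g : (Fin 3 → Fin 2) → R)
    (hg : ∀ j, ∑ a, g (Function.update j f a) = 0) : ∑ j, g j = 0 := by
  rw [← (Equiv.piSplitAt f fun _ => Fin 2).symm.sum_comp, Fintype.sum_prod_type_right]
  refine Finset.sum_eq_zero fun r _ => ?_
  rw [← hg ((Equiv.piSplitAt f fun _ => Fin 2).symm (0, r))]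
  refine Finset.sum_congr rfl fun a _ => congrArg g (funext fun s => ?_)
  by_cases hs : s = f
  · subst hs
    simp
  · simp [hs]

theorem slot_tp {R : Type} [CommRing R] (h : Fin 3 → Matrix (Fin 2) (Fin 2) R) (f : Fin 3)
    (i j : Fin 3 → Fin 2) (a b : Fin 2) :
    tp h (Function.update i f a) (Function.update j f b) =
      h f a b * ∏ t ∈ Finset.univ.erase f, h t (i t) (j t) := by
  rw [Mx.tp_apply, ← Finset.mul_prod_erase _ _ (Finset.mem_univ f), Function.update_self,
    Function.update_self]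
  congr 1
  exact Finset.prod_congr rfl fun t ht => by
    rw [Function.update_of_ne (Finset.ne_of_mem_erase ht),
      Function.update_of_ne (Finset.ne_of_mem_erase ht)]

/-- If `h f u = 0` with `u ≠ 0` then `tp h` kills the vector `j ↦ u (j f)`. -/
theorem isUnit_of_tp [Fact l.Prime] {h : Fin 3 → Matrix (Fin 2) (Fin 2) (ZMod l)}
    {T : Matrix (Fin 3 → Fin 2) (Fin 3 → Fin 2) (ZMod l)} (hT : T * tp h = 1) (f : Fin 3) :
    IsUnit (h f) := by
  by_contra hn
  rw [isUnit_iff_isUnit_det, isUnit_iff_ne_zero, not_not] at hn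
  obtain ⟨u, hu, h0⟩ := exists_mulVec_eq_zero_iff.2 hn
  have h1 : tp h *ᵥ (fun j => u (j f)) = 0 := by
    funext i
    refine slot_sum f (fun j => tp h i j * u (j f)) fun j => ?_
    have h2 : ∑ a, h f (i f) a * u a = 0 := congrFun h0 (i f)
    have h3 : ∀ a, tp h i (Function.update j f a) * u (Function.update j f a f) =
        (∏ t ∈ Finset.univ.erase f, h t (i t) (j t)) * (h f (i f) a * u a) := fun a => by
      have h4 := slot_tp h f i j (i f) a
      rw [Function.update_eq_self] at h4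
      rw [h4, Function.update_self]
      ring
    rw [Finset.sum_congr rfl fun a _ => h3 a, ← Finset.mul_sum, h2, mul_zero]
  have h2 := congrArg (T *ᵥ ·) h1
  simp only [mulVec_mulVec, hT, one_mulVec, mulVec_zero] at h2
  exact hu (funext fun a => congrFun h2 fun _ => a)

/-- The contraction of `tp h v` with `w` in the slot `f` is a combination of the contractions of `v`
with `w ᵥ* h f` (`Mx.tp_update`; sum over `j` in pairs `update j f 0`, `update j f 1`; `Fin 3` can be
treated by cases). -/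
theorem contract_tp {R : Type} [CommRing R] (h : Fin 3 → Matrix (Fin 2) (Fin 2) R) (f : Fin 3)
    (w : Fin 2 → R) (v : (Fin 3 → Fin 2) → R)
    (hv : ∀ i, ∑ a, (w ᵥ* h f) a * v (Function.update i f a) = 0) (i : Fin 3 → Fin 2) :
    ∑ a, w a * (tp h *ᵥ v) (Function.update i f a) = 0 := by
  have h1 : ∑ a, w a * (tp h *ᵥ v) (Function.update i f a) =
      ∑ j, ∑ a, w a * (tp h (Function.update i f a) j * v j) := by
    rw [Finset.sum_comm]
    exact Finset.sum_congr rfl fun a _ => by rw [← Finset.mul_sum]; rfl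
  rw [h1]
  refine slot_sum f _ fun j => ?_
  have h2 : ∀ b, ∑ a, w a * (tp h (Function.update i f a) (Function.update j f b) *
      v (Function.update j f b)) = (∏ t ∈ Finset.univ.erase f, h t (i t) (j t)) *
        ((w ᵥ* h f) b * v (Function.update j f b)) := fun b => by
    simp only [slot_tp, vecMul, dotProduct, Fin.sum_univ_two]
    ring
  rw [Finset.sum_congr rfl fun b _ => h2 b, ← Finset.mul_sum, hv, mul_zero]

/-- `A * B = tp h * A`; for the other inclusion use `B'` and `tp` of the inverses (`Mx.tp_mul`). -/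
theorem mv_slot [Fact l.Prime] (hA : A * A' = 1) (hA' : A' * A = 1) {B B' : Matrix ν ν (ZMod l)}
    (hB : B * B' = 1) {h : Fin 3 → Matrix (Fin 2) (Fin 2) (ZMod l)} (hh : A * B * A' = tp h)
    (f : Fin 3) (w : Fin 2 → ZMod l) :
    IsUnit (h f) ∧ mv B (slot A f w) = slot A f (w ᵥ* (h f)⁻¹) := by
  have hB' : B' * B = 1 := mul_eq_one_comm.1 hB
  have hAB : A * B = tp h * A := by
    rw [← hh, Matrix.mul_assoc _ A', hA', Matrix.mul_one]
  have hT : A * B' * A' * tp h = 1 := by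
    rw [← hh]
    calc A * B' * A' * (A * B * A') = A * (B' * (A' * A) * B) * A' := by
          simp only [Matrix.mul_assoc]
      _ = 1 := by rw [hA', Matrix.mul_one, hB', Matrix.mul_one, hA]
  have hu : ∀ s, IsUnit (h s).det := fun s => (isUnit_iff_isUnit_det _).1 (isUnit_of_tp hT s)
  have hinv : tp h * tp (fun s => (h s)⁻¹) = 1 := by
    rw [Mx.tp_mul, ← Mx.tp_one]
    exact congrArg tp (funext fun s => mul_nonsing_inv _ (hu s))
  have hAB' : A * B' = tp (fun s => (h s)⁻¹) * A := by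
    have h1 : A * B' * A' = tp fun s => (h s)⁻¹ := by
      rw [← Matrix.mul_one (A * B' * A'), ← hinv, ← Matrix.mul_assoc, hT, Matrix.one_mul]
    rw [← h1, Matrix.mul_assoc _ A', hA', Matrix.mul_one]
  refine ⟨isUnit_of_tp hT f, ?_⟩
  ext x
  constructor
  · rintro ⟨y, hy, e⟩
    rw [slot_mem, e, mulVec_mulVec, hAB, ← mulVec_mulVec]
    refine contract_tp h f _ _ ?_
    rw [vecMul_vecMul, nonsing_inv_mul _ (hu f), vecMul_one]
    exact hy
  · intro hx
    refine ⟨Kz.lift (B' *ᵥ Kz.vZ l x), ?_, by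
      rw [Kz.vZ_lift, mulVec_mulVec, hB, one_mulVec]⟩
    rw [slot_mem, Kz.vZ_lift, mulVec_mulVec, hAB', ← mulVec_mulVec]
    exact contract_tp (fun s => (h s)⁻¹) f w _ hx

theorem mv_mem_SL [Fact l.Prime] (hA : A * A' = 1) (hA' : A' * A = 1) {B B' : Matrix ν ν (ZMod l)}
    (hB : B * B' = 1) {h : Fin 3 → Matrix (Fin 2) (Fin 2) (ZMod l)} (hh : A * B * A' = tp h)
    {f : Fin 3} {G : AddSubgroup (ν → ℤ)} (hG : G ∈ SL A f) : mv B G ∈ SL A f := by
  obtain ⟨w, hw, rfl⟩ := hG
  obtain ⟨hu, e⟩ := mv_slot hA hA' hB hh f w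
  refine ⟨w ᵥ* (h f)⁻¹, fun h0 => hw ?_, e⟩
  have h1 := congrArg (· ᵥ* h f) h0
  simpa only [vecMul_vecMul, nonsing_inv_mul _ ((isUnit_iff_isUnit_det _).1 hu), vecMul_one,
    zero_vecMul] using h1

theorem slot_smul [Fact l.Prime] (f : Fin 3) {c : ZMod l} (hc : c ≠ 0) (w : Fin 2 → ZMod l) :
    slot A f (c • w) = slot A f w := by
  ext x
  simp only [slot_mem, Pi.smul_apply, smul_eq_mul, mul_assoc, ← Finset.mul_sum, mul_eq_zero, hc,
    false_or]

end M4.G
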